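import Mathlib

namespace Pool.Agent.Results.MP_75f5df_co.NeverAmenable

open MeasureTheory

/-! ### Definitions -/

section Defs

variable {V : Type} (G : SimpleGraph V)

/-- The subgraph induced on `S` is connected and has no cut vertex of its own. -/
def NoCut (S : Set V) : Prop :=
  (G.induce S).Connected ∧ ∀ v ∈ S, (G.induce (S \ {v})).Preconnected

/-- The vertex set of a block: a maximal set inducing a connected subgraph without a cut vertex
of its own. -/
def IsBlock (S : Set V) : Prop := Maximal (NoCut G) S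

/-- `G` is the tree-like graph `T_{m,n}`: it is connected, every block is a complete graph on `n`
vertices, and every vertex lies in exactly `m` blocks. -/
def IsTreeLike (m n : ℕ∞) : Prop :=
  G.Connected ∧
  (∀ S, IsBlock G S → (∀ x ∈ S, ∀ y ∈ S, x ≠ y → G.Adj x y) ∧ S.encard = n) ∧
  ∀ v : V, {S | IsBlock G S ∧ v ∈ S}.encard = m

/-- The topology of pointwise convergence on the automorphism group (the vertex set being
discrete). -/
@[reducible] def autTopology : TopologicalSpace (G ≃g G) :=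
  TopologicalSpace.induced (fun (g : G ≃g G) (v : V) => g v)
    (@Pi.topologicalSpace V (fun _ => V) (fun _ => ⊥))

end Defs

/-- A topological group is amenable if every continuous action on a nonempty compact Hausdorff
space admits an invariant Borel probability measure. -/
def IsAmenable (Γ : Type) [Group Γ] [TopologicalSpace Γ] : Prop :=
  ∀ (X : Type) [TopologicalSpace X] [CompactSpace X] [T2Space X] [Nonempty X]
    [MeasurableSpace X] [BorelSpace X] [MulAction Γ X] [ContinuousSMul Γ X],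
    ∃ μ : Measure X, IsProbabilityMeasure μ ∧ ∀ g : Γ, μ.map (fun x => g • x) = μ

/-! ### Blocks -/

section Blocks

variable {V : Type} {G : SimpleGraph V}

/-- There is a walk from `x` to `y` inside `S`. -/
def InW (G : SimpleGraph V) (S : Set V) (x y : V) : Prop :=
  ∃ p : G.Walk x y, ∀ z ∈ p.support, z ∈ S

theorem InW.left {S : Set V} {x y : V} (h : InW G S x y) : x ∈ S := by
  obtain ⟨p, hp⟩ := h
  exact hp x p.start_mem_support

theorem InW.right {S : Set V} {x y : V} (h : InW G S x y) : y ∈ S := by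
  obtain ⟨p, hp⟩ := h
  exact hp y p.end_mem_support

theorem InW.refl {S : Set V} {x : V} (h : x ∈ S) : InW G S x x :=
  ⟨SimpleGraph.Walk.nil, by simpa using h⟩

theorem InW.symm {S : Set V} {x y : V} (h : InW G S x y) : InW G S y x := by
  obtain ⟨p, hp⟩ := h
  exact ⟨p.reverse, by simpa using hp⟩

theorem InW.trans {S : Set V} {x y z : V} (h : InW G S x y) (h' : InW G S y z) :
    InW G S x z := by
  obtain ⟨p, hp⟩ := h
  obtain ⟨q, hq⟩ := h'
  refine ⟨p.append q, fun w hw => ?_⟩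
  rcases (SimpleGraph.Walk.mem_support_append_iff _ _).1 hw with h | h
  · exact hp w h
  · exact hq w h

theorem InW.adj {S : Set V} {x y : V} (hx : x ∈ S) (hy : y ∈ S) (h : G.Adj x y) :
    InW G S x y := by
  refine ⟨h.toWalk, fun w hw => ?_⟩
  simp at hw
  rcases hw with rfl | rfl
  · exact hx
  · exact hy

theorem InW.mono {S T : Set V} {x y : V} (h : InW G S x y) (hST : S ⊆ T) : InW G T x y := by
  obtain ⟨p, hp⟩ := h
  exact ⟨p, fun z hz => hST (hp z hz)⟩

theorem reachable_iff {S : Set V} {x y : V} (hx : x ∈ S) (hy : y ∈ S) :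
    (G.induce S).Reachable ⟨x, hx⟩ ⟨y, hy⟩ ↔ InW G S x y := by
  constructor
  · rintro ⟨p⟩
    refine ⟨p.map (SimpleGraph.Embedding.induce S).toHom, fun z hz => ?_⟩
    have hz' : z ∈ p.support.map (SimpleGraph.Embedding.induce (G := G) S).toHom := by
      rw [← SimpleGraph.Walk.support_map]
      exact hz
    obtain ⟨w, -, rfl⟩ := List.mem_map.1 hz'
    exact w.2
  · rintro ⟨p, hp⟩
    exact ⟨p.induce S hp⟩

theorem preconnected_iff {S : Set V} :
    (G.induce S).Preconnected ↔ ∀ x ∈ S, ∀ y ∈ S, InW G S x y := by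
  constructor
  · intro h x hx y hy
    exact (reachable_iff hx hy).1 (h ⟨x, hx⟩ ⟨y, hy⟩)
  · rintro h ⟨x, hx⟩ ⟨y, hy⟩
    exact (reachable_iff hx hy).2 (h x hx y hy)

theorem noCut_iff {S : Set V} : NoCut G S ↔ S.Nonempty ∧ (∀ x ∈ S, ∀ y ∈ S, InW G S x y) ∧
    ∀ v ∈ S, ∀ x ∈ S \ {v}, ∀ y ∈ S \ {v}, InW G (S \ {v}) x y := by
  unfold NoCut
  rw [SimpleGraph.connected_iff, preconnected_iff]
  constructor
  · rintro ⟨⟨h1, ⟨⟨x, hx⟩⟩⟩, h2⟩
    exact ⟨⟨x, hx⟩, h1, fun v hv => preconnected_iff.1 (h2 v hv)⟩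
  · rintro ⟨⟨x, hx⟩, h1, h2⟩
    exact ⟨⟨h1, ⟨⟨x, hx⟩⟩⟩, fun v hv => preconnected_iff.2 (h2 v hv)⟩

/-- Every edge lies in a block. -/
theorem exists_block {x y : V} (h : G.Adj x y) : ∃ S, IsBlock G S ∧ x ∈ S ∧ y ∈ S := by
  have hpair : NoCut G {x, y} := by
    rw [noCut_iff]
    refine ⟨⟨x, by simp⟩, ?_, ?_⟩
    · rintro a (rfl | rfl) b (rfl | rfl)
      · exact InW.refl (by simp)
      · exact InW.adj (by simp) (by simp) h
      · exact InW.adj (by simp) (by simp) h.symm
      · exact InW.refl (by simp)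
    · rintro v (rfl | rfl) a ⟨ha, hav⟩ b ⟨hb, hbv⟩
      · rcases ha with rfl | rfl
        · exact absurd rfl hav
        · rcases hb with rfl | rfl
          · exact absurd rfl hbv
          · exact InW.refl ⟨by simp, hav⟩
      · rcases ha with rfl | rfl
        · rcases hb with rfl | rfl
          · exact InW.refl ⟨by simp, hav⟩
          · exact absurd rfl hbv
        · exact absurd rfl hav
  obtain ⟨S, hS, hmax⟩ := zorn_subset_nonempty {S | NoCut G S} (by
    intro c hc hchain hne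
    refine ⟨⋃₀ c, ?_, fun s hs => Set.subset_sUnion_of_mem hs⟩
    rw [Set.mem_ofPred_eq, noCut_iff]
    obtain ⟨S0, hS0⟩ := hne
    have htwo : ∀ a ∈ ⋃₀ c, ∀ b ∈ ⋃₀ c, ∃ S ∈ c, a ∈ S ∧ b ∈ S := by
      rintro a ⟨S, hS, ha⟩ b ⟨T, hT, hb⟩
      rcases hchain.total hS hT with hST | hTS
      · exact ⟨T, hT, hST ha, hb⟩
      · exact ⟨S, hS, ha, hTS hb⟩
    refine ⟨?_, ?_, ?_⟩
    · obtain ⟨z, hz⟩ := (noCut_iff.1 (hc hS0)).1
      exact ⟨z, S0, hS0, hz⟩
    · intro a ha b hb
      obtain ⟨S, hS, haS, hbS⟩ := htwo a ha b hb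
      exact ((noCut_iff.1 (hc hS)).2.1 a haS b hbS).mono (Set.subset_sUnion_of_mem hS)
    · rintro v hv a ⟨ha, hav⟩ b ⟨hb, hbv⟩
      obtain ⟨S, hS, haS, hbS⟩ := htwo a ha b hb
      by_cases hvS : v ∈ S
      · exact ((noCut_iff.1 (hc hS)).2.2 v hvS a ⟨haS, hav⟩ b ⟨hbS, hbv⟩).mono
          (Set.sdiff_subset_sdiff_left (Set.subset_sUnion_of_mem hS))
      · refine ((noCut_iff.1 (hc hS)).2.1 a haS b hbS).mono ?_
        intro z hz
        exact ⟨⟨S, hS, hz⟩, fun hzv => hvS (hzv ▸ hz)⟩) {x, y} hpair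
  refine ⟨S, ⟨hmax.1, hmax.2⟩, hS (by simp), hS (by simp)⟩

/-- Blocks at `v` containing vertices joined by a walk avoiding `v` coincide. -/
theorem block_unique (hcomp : ∀ S, IsBlock G S → ∀ x ∈ S, ∀ y ∈ S, x ≠ y → G.Adj x y)
    {b b' : Set V} (hb : IsBlock G b) (hb' : IsBlock G b') {v u u' : V} (hvb : v ∈ b)
    (hvb' : v ∈ b') (hub : u ∈ b) (hub' : u' ∈ b') (huu : InW G {v}ᶜ u u') : b = b' := by
  classical
  obtain ⟨p0, hp0⟩ := huu
  set p := p0.bypass with hp
  have hpath : p.IsPath := p0.bypass_isPath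
  have hpv : ∀ z ∈ p.support, z ≠ v := fun z hz => hp0 z (p0.support_bypass_subset_support hz)
  have huv : u ≠ v := hpv u p.start_mem_support
  have huv' : u' ≠ v := hpv u' p.end_mem_support
  set S : Set V := b ∪ b' ∪ {z | z ∈ p.support} with hSdef
  -- within a complete piece
  have clique : ∀ c, IsBlock G c → ∀ T : Set V, ∀ x ∈ c, ∀ y ∈ c, x ∈ T → y ∈ T →
      InW G T x y := by
    intro c hc T x hx y hy hxT hyT
    by_cases hxy : x = y
    · subst hxy
      exact InW.refl hxT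
    · exact InW.adj hxT hyT (hcomp c hc x hx y hy hxy)
  -- everything is joined to `v` in `S \ {w}` when `w ≠ v`
  have hub_v : ∀ w, w ≠ v → ∀ x ∈ S, x ≠ w → InW G (S \ {w}) x v := by
    intro w hw x hx hxw
    have hvS : v ∈ S \ {w} := ⟨Or.inl (Or.inl hvb), fun h => hw h.symm⟩
    rcases hx with (hx | hx) | hx
    · exact clique b hb _ x hx v hvb ⟨Or.inl (Or.inl hx), hxw⟩ hvS
    · exact clique b' hb' _ x hx v hvb' ⟨Or.inl (Or.inr hx), hxw⟩ hvS
    · have hx' : x ∈ p.support := hx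
      by_cases hwt : w ∈ (p.takeUntil x hx').support
      · -- then `w` is not on the second part
        have hwd : w ∉ (p.dropUntil x hx').support := by
          intro hwd
          have hspec := p.take_spec hx'
          rw [← hspec] at hpath
          have hnd := hpath.support_nodup
          rw [SimpleGraph.Walk.support_append, List.nodup_append'] at hnd
          have hwtail : w ∈ (p.dropUntil x hx').support.tail := by
            rcases (SimpleGraph.Walk.mem_support_iff _).1 hwd with h | h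
            · exact absurd h.symm hxw
            · exact h
          exact hnd.2.2 hwt hwtail
        have h1 : InW G (S \ {w}) x u' := by
          refine ⟨p.dropUntil x hx', fun z hz => ⟨Or.inr ?_, fun hzw => hwd (hzw ▸ hz)⟩⟩
          exact p.support_dropUntil_subset_support hx' hz
        exact h1.trans (clique b' hb' _ u' hub' v hvb' h1.right hvS)
      · have h1 : InW G (S \ {w}) u x := by
          refine ⟨p.takeUntil x hx', fun z hz => ⟨Or.inr ?_, fun hzw => hwt (hzw ▸ hz)⟩⟩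
          exact p.support_takeUntil_subset_support hx' hz
        exact h1.symm.trans (clique b hb _ u hub v hvb h1.left hvS)
  have hub_u : ∀ x ∈ S, x ≠ v → InW G (S \ {v}) x u := by
    intro x hx hxv
    have huS : u ∈ S \ {v} := ⟨Or.inl (Or.inl hub), huv⟩
    have hpS0 : InW G (S \ {v}) u u' := ⟨p, fun z hz => ⟨Or.inr hz, hpv z hz⟩⟩
    have hpS : InW G (S \ {v}) u' u := hpS0.symm
    rcases hx with (hx | hx) | hx
    · exact clique b hb _ x hx u hub ⟨Or.inl (Or.inl hx), hxv⟩ huS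
    · have hxS : x ∈ S \ {v} := ⟨Or.inl (Or.inr hx), hxv⟩
      exact (clique b' hb' _ x hx u' hub' hxS hpS.left).trans hpS
    · have hx' : x ∈ p.support := hx
      have h1 : InW G (S \ {v}) u x := by
        refine ⟨p.takeUntil x hx', fun z hz => ?_⟩
        have := p.support_takeUntil_subset_support hx' hz
        exact ⟨Or.inr this, hpv z this⟩
      exact h1.symm
  have hS : NoCut G S := by
    rw [noCut_iff]
    refine ⟨⟨v, Or.inl (Or.inl hvb)⟩, ?_, ?_⟩
    · intro x hx y hy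
      have key : ∀ x ∈ S, InW G S x v := by
        intro x hx
        by_cases hxu : x = u
        · subst hxu
          exact clique b hb _ x hub v hvb (Or.inl (Or.inl hub)) (Or.inl (Or.inl hvb))
        · exact (hub_v u huv x hx hxu).mono Set.sdiff_subset
      exact (key x hx).trans (key y hy).symm
    · rintro w hw x ⟨hx, hxw⟩ y ⟨hy, hyw⟩
      by_cases hwv : w = v
      · subst hwv
        exact (hub_u x hx hxw).trans (hub_u y hy hyw).symm
      · exact (hub_v w hwv x hx hxw).trans (hub_v w hwv y hy hyw).symm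
  have h1 : S ⊆ b := hb.2 hS (fun z hz => Or.inl (Or.inl hz))
  have h2 : S ⊆ b' := hb'.2 hS (fun z hz => Or.inl (Or.inr hz))
  apply Set.Subset.antisymm
  · intro z hz
    exact h2 (Or.inl (Or.inl hz))
  · intro z hz
    exact h1 (Or.inl (Or.inr hz))

/-! ### Directions -/

/-- The block `b` at `v` points in the direction of `w`. -/
def Dir (G : SimpleGraph V) (v w : V) (b : Set V) : Prop :=
  IsBlock G b ∧ v ∈ b ∧ ∃ u ∈ b, InW G {v}ᶜ u w

/-- All blocks are complete. -/
def Comp (G : SimpleGraph V) : Prop :=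
  ∀ S, IsBlock G S → ∀ x ∈ S, ∀ y ∈ S, x ≠ y → G.Adj x y

theorem Dir.unique (hcomp : Comp G) {v w : V} {b b' : Set V} (h : Dir G v w b)
    (h' : Dir G v w b') : b = b' := by
  obtain ⟨hb, hv, u, hu, hw⟩ := h
  obtain ⟨hb', hv', u', hu', hw'⟩ := h'
  exact block_unique hcomp hb hb' hv hv' hu hu' (hw.trans hw'.symm)

theorem Dir.exists (hconn : G.Connected) {v w : V} (hvw : v ≠ w) : ∃ b, Dir G v w b := by
  classical
  obtain ⟨p0⟩ := hconn.preconnected v w
  have hp := p0.bypass_isPath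
  generalize p0.bypass = p at hp
  cases p with
  | nil => exact absurd rfl hvw
  | cons h q =>
    rename_i u
    obtain ⟨S, hS, hv, hu⟩ := exists_block h
    refine ⟨S, hS, hv, u, hu, q, fun z hz hzv => ?_⟩
    rw [SimpleGraph.Walk.cons_isPath_iff] at hp
    have : z = v := hzv
    exact hp.2 (this ▸ hz)

theorem Dir.self {v w : V} {b : Set V} (hb : IsBlock G b) (hv : v ∈ b) (hw : w ∈ b)
    (hvw : v ≠ w) : Dir G v w b :=
  ⟨hb, hv, w, hw, InW.refl (fun h => hvw (Eq.symm h))⟩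

theorem Dir.cross (hconn : G.Connected) (hcomp : Comp G) {v v' w : V} {b c : Set V}
    (h : Dir G v v' b) (h' : Dir G v w c) (hbc : b ≠ c) : InW G {v'}ᶜ v w := by
  classical
  obtain ⟨p0⟩ := hconn.preconnected v w
  have hp := p0.bypass_isPath
  generalize p0.bypass = p at hp
  refine ⟨p, fun z hz hzv => ?_⟩
  have hz' : z = v' := hzv
  subst hz'
  have hvz : z ≠ v := by
    obtain ⟨-, -, u, -, hu⟩ := h
    exact fun e => hu.right e
  -- the part of `p` after `z` avoids `v`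
  have havoid : InW G {v}ᶜ z w := by
    refine ⟨p.dropUntil z hz, fun y hy hyv => ?_⟩
    have hyv' : y = v := hyv
    subst hyv'
    have hspec := p.take_spec hz
    rw [← hspec] at hp
    have hnd := hp.support_nodup
    rw [SimpleGraph.Walk.support_append, List.nodup_append'] at hnd
    have hwtail : y ∈ (p.dropUntil z hz).support.tail := by
      rcases (SimpleGraph.Walk.mem_support_iff _).1 hy with h | h
      · exact absurd h.symm hvz
      · exact h
    exact hnd.2.2 (p.takeUntil z hz).start_mem_support hwtail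
  obtain ⟨hb, hv, u, hu, huz⟩ := h
  exact hbc (Dir.unique hcomp ⟨hb, hv, u, hu, huz.trans havoid⟩ h')

/-! ### Flags -/

/-- A flag: a vertex together with a block containing it. -/
def Flag (G : SimpleGraph V) : Type := {f : V × Set V // IsBlock G f.2 ∧ f.1 ∈ f.2}

/-- The vertex of a flag. -/
def Flag.v (f : Flag G) : V := f.1.1

/-- The block of a flag. -/
def Flag.b (f : Flag G) : Set V := f.1.2

theorem Flag.hb (f : Flag G) : IsBlock G f.b := f.2.1

theorem Flag.hv (f : Flag G) : f.v ∈ f.b := f.2.2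

theorem Flag.ext {f f' : Flag G} (h1 : f.v = f'.v) (h2 : f.b = f'.b) : f = f' :=
  Subtype.ext (Prod.ext h1 h2)

/-- Make a flag. -/
def mkF (v : V) (b : Set V) (hb : IsBlock G b) (hv : v ∈ b) : Flag G := ⟨(v, b), hb, hv⟩

/-- Data turning flags into a set with commuting structure: simply transitive group structures on
every block, and on the set of blocks at every vertex. -/
structure Data (G : SimpleGraph V) where
  A : Type
  B : Type
  [gA : Group A]
  [gB : Group B]
  cA : ∀ b : Set V, IsBlock G b → (b ≃ A)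
  cB : ∀ v : V, {b : Set V // IsBlock G b ∧ v ∈ b} ≃ B

attribute [instance] Data.gA Data.gB

variable (D : Data G)

/-- Moving the vertex inside the block. -/
def sA (a : D.A) (f : Flag G) : Flag G :=
  mkF ((D.cA f.b f.hb).symm (a * D.cA f.b f.hb ⟨f.v, f.hv⟩)).1 f.b f.hb (Subtype.prop _)

/-- Changing the block at the vertex. -/
def sB (β : D.B) (f : Flag G) : Flag G :=
  mkF f.v ((D.cB f.v).symm (β * D.cB f.v ⟨f.b, f.hb, f.hv⟩)).1
    ((D.cB f.v).symm (β * D.cB f.v ⟨f.b, f.hb, f.hv⟩)).2.1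
    ((D.cB f.v).symm (β * D.cB f.v ⟨f.b, f.hb, f.hv⟩)).2.2

theorem sA_one (f : Flag G) : sA D 1 f = f := by
  apply Flag.ext
  · show ((D.cA f.b f.hb).symm (1 * D.cA f.b f.hb ⟨f.v, f.hv⟩)).1 = f.v
    rw [one_mul, Equiv.symm_apply_apply]
  · rfl

theorem sB_one (f : Flag G) : sB D 1 f = f := by
  apply Flag.ext
  · rfl
  · show ((D.cB f.v).symm (1 * D.cB f.v ⟨f.b, f.hb, f.hv⟩)).1 = f.b
    rw [one_mul, Equiv.symm_apply_apply]

theorem sA_mul (a a' : D.A) (f : Flag G) : sA D (a * a') f = sA D a (sA D a' f) := by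
  apply Flag.ext
  · show ((D.cA f.b f.hb).symm (a * a' * D.cA f.b f.hb ⟨f.v, f.hv⟩)).1 =
      ((D.cA f.b f.hb).symm (a * D.cA f.b f.hb
        ((D.cA f.b f.hb).symm (a' * D.cA f.b f.hb ⟨f.v, f.hv⟩)))).1
    rw [Equiv.apply_symm_apply, mul_assoc]
  · rfl

theorem sB_mul (β β' : D.B) (f : Flag G) : sB D (β * β') f = sB D β (sB D β' f) := by
  apply Flag.ext
  · rfl
  · show ((D.cB f.v).symm (β * β' * D.cB f.v ⟨f.b, f.hb, f.hv⟩)).1 =
      ((D.cB f.v).symm (β * D.cB f.v
        ((D.cB f.v).symm (β' * D.cB f.v ⟨f.b, f.hb, f.hv⟩)))).1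
    rw [Equiv.apply_symm_apply, mul_assoc]

/-- `sA` as a permutation. -/
def pA (a : D.A) : Equiv.Perm (Flag G) where
  toFun := sA D a
  invFun := sA D a⁻¹
  left_inv f := by rw [← sA_mul, inv_mul_cancel, sA_one]
  right_inv f := by rw [← sA_mul, mul_inv_cancel, sA_one]

/-- `sB` as a permutation. -/
def pB (β : D.B) : Equiv.Perm (Flag G) where
  toFun := sB D β
  invFun := sB D β⁻¹
  left_inv f := by rw [← sB_mul, inv_mul_cancel, sB_one]
  right_inv f := by rw [← sB_mul, mul_inv_cancel, sB_one]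

theorem pA_mul (a a' : D.A) : pA D (a * a') = pA D a * pA D a' :=
  Equiv.ext fun f => sA_mul D a a' f

theorem pB_mul (β β' : D.B) : pB D (β * β') = pB D β * pB D β' :=
  Equiv.ext fun f => sB_mul D β β' f

theorem pA_one : pA D 1 = 1 := Equiv.ext fun f => sA_one D f

theorem pB_one : pB D 1 = 1 := Equiv.ext fun f => sB_one D f

theorem pA_inv (a : D.A) : (pA D a)⁻¹ = pA D a⁻¹ := by
  rw [inv_eq_iff_mul_eq_one, ← pA_mul, mul_inv_cancel, pA_one]

theorem pB_inv (β : D.B) : (pB D β)⁻¹ = pB D β⁻¹ := by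
  rw [inv_eq_iff_mul_eq_one, ← pB_mul, mul_inv_cancel, pB_one]

/-- The group generated by all moves. -/
def HH : Subgroup (Equiv.Perm (Flag G)) :=
  Subgroup.closure (Set.range (pA D) ∪ Set.range (pB D))

theorem pA_mem (a : D.A) : pA D a ∈ HH D := Subgroup.subset_closure (Or.inl ⟨a, rfl⟩)

theorem pB_mem (β : D.B) : pB D β ∈ HH D := Subgroup.subset_closure (Or.inr ⟨β, rfl⟩)

/-- Reduced words; `true` if the last applied letter moves the vertex. -/
inductive Red : Bool → Equiv.Perm (Flag G) → Prop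
  | a1 (a : D.A) (ha : a ≠ 1) : Red true (pA D a)
  | a2 (a : D.A) (ha : a ≠ 1) (σ : Equiv.Perm (Flag G)) (h : Red false σ) :
      Red true (pA D a * σ)
  | b1 (β : D.B) (hβ : β ≠ 1) : Red false (pB D β)
  | b2 (β : D.B) (hβ : β ≠ 1) (σ : Equiv.Perm (Flag G)) (h : Red true σ) :
      Red false (pB D β * σ)

theorem red_pA (a : D.A) (σ : Equiv.Perm (Flag G)) (h : σ = 1 ∨ ∃ t, Red D t σ) :
    pA D a * σ = 1 ∨ ∃ t, Red D t (pA D a * σ) := by
  by_cases ha : a = 1
  · rw [ha, pA_one, one_mul]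
    exact h
  rcases h with rfl | ⟨t, h⟩
  · rw [mul_one]
    exact Or.inr ⟨true, Red.a1 a ha⟩
  · cases h with
    | a1 a' ha' =>
      rw [← pA_mul]
      by_cases h1 : a * a' = 1
      · rw [h1, pA_one]; exact Or.inl rfl
      · exact Or.inr ⟨true, Red.a1 _ h1⟩
    | a2 a' ha' σ' hσ' =>
      rw [← mul_assoc, ← pA_mul]
      by_cases h1 : a * a' = 1
      · rw [h1, pA_one, one_mul]; exact Or.inr ⟨false, hσ'⟩
      · exact Or.inr ⟨true, Red.a2 _ h1 _ hσ'⟩
    | b1 β hβ => exact Or.inr ⟨true, Red.a2 a ha _ (Red.b1 β hβ)⟩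
    | b2 β hβ σ' hσ' => exact Or.inr ⟨true, Red.a2 a ha _ (Red.b2 β hβ σ' hσ')⟩

theorem red_pB (β : D.B) (σ : Equiv.Perm (Flag G)) (h : σ = 1 ∨ ∃ t, Red D t σ) :
    pB D β * σ = 1 ∨ ∃ t, Red D t (pB D β * σ) := by
  by_cases ha : β = 1
  · rw [ha, pB_one, one_mul]
    exact h
  rcases h with rfl | ⟨t, h⟩
  · rw [mul_one]
    exact Or.inr ⟨false, Red.b1 β ha⟩
  · cases h with
    | b1 β' hβ' =>
      rw [← pB_mul]
      by_cases h1 : β * β' = 1
      · rw [h1, pB_one]; exact Or.inl rfl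
      · exact Or.inr ⟨false, Red.b1 _ h1⟩
    | b2 β' hβ' σ' hσ' =>
      rw [← mul_assoc, ← pB_mul]
      by_cases h1 : β * β' = 1
      · rw [h1, pB_one, one_mul]; exact Or.inr ⟨true, hσ'⟩
      · exact Or.inr ⟨false, Red.b2 _ h1 _ hσ'⟩
    | a1 a ha' => exact Or.inr ⟨false, Red.b2 β ha _ (Red.a1 a ha')⟩
    | a2 a ha' σ' hσ' => exact Or.inr ⟨false, Red.b2 β ha _ (Red.a2 a ha' σ' hσ')⟩

theorem mem_HH (σ : Equiv.Perm (Flag G)) (h : σ ∈ HH D) : σ = 1 ∨ ∃ t, Red D t σ := by
  induction h using Subgroup.closure_induction_left with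
  | one => exact Or.inl rfl
  | mul_left x hx y _ ih =>
    rcases hx with ⟨a, rfl⟩ | ⟨β, rfl⟩
    · exact red_pA D a y ih
    · exact red_pB D β y ih
  | inv_mul_cancel x hx y _ ih =>
    rcases hx with ⟨a, rfl⟩ | ⟨β, rfl⟩
    · rw [pA_inv]; exact red_pA D _ y ih
    · rw [pB_inv]; exact red_pB D _ y ih

theorem sA_v_ne (a : D.A) (ha : a ≠ 1) (f : Flag G) : (sA D a f).v ≠ f.v := by
  intro h
  apply ha
  have h1 : (D.cA f.b f.hb).symm (a * D.cA f.b f.hb ⟨f.v, f.hv⟩) = ⟨f.v, f.hv⟩ := Subtype.ext h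
  rw [Equiv.symm_apply_eq] at h1
  exact mul_eq_right.1 h1

theorem sB_b_ne (β : D.B) (hβ : β ≠ 1) (f : Flag G) : (sB D β f).b ≠ f.b := by
  intro h
  apply hβ
  have h1 : (D.cB f.v).symm (β * D.cB f.v ⟨f.b, f.hb, f.hv⟩) = ⟨f.b, f.hb, f.hv⟩ :=
    Subtype.ext h
  rw [Equiv.symm_apply_eq] at h1
  exact mul_eq_right.1 h1

theorem red_moves (hconn : G.Connected) (hcomp : Comp G) (t : Bool) (σ : Equiv.Perm (Flag G))
    (h : Red D t σ) (f : Flag G) :
    (t = true → (σ f).v ≠ f.v ∧ Dir G (σ f).v f.v (σ f).b) ∧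
    (t = false → ((σ f).v = f.v ∧ (σ f).b ≠ f.b) ∨
      ((σ f).v ≠ f.v ∧ ¬ Dir G (σ f).v f.v (σ f).b)) := by
  induction h with
  | a1 a ha =>
    refine ⟨fun _ => ?_, fun h => absurd h (by decide)⟩
    have h1 : (pA D a f).v ≠ f.v := sA_v_ne D a ha f
    have hb : (pA D a f).b = f.b := rfl
    exact ⟨h1, Dir.self (pA D a f).hb (pA D a f).hv (by rw [hb]; exact f.hv) h1⟩
  | a2 a ha σ h ih =>
    refine ⟨fun _ => ?_, fun h => absurd h (by decide)⟩
    have h1 : (pA D a (σ f)).v ≠ (σ f).v := sA_v_ne D a ha (σ f)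
    have hb : (pA D a (σ f)).b = (σ f).b := rfl
    show (pA D a (σ f)).v ≠ f.v ∧ Dir G (pA D a (σ f)).v f.v (pA D a (σ f)).b
    rcases ih.2 rfl with ⟨h2, h3⟩ | ⟨h2, h3⟩
    · have h4 : (pA D a (σ f)).v ≠ f.v := by rw [← h2]; exact h1
      exact ⟨h4, Dir.self (pA D a (σ f)).hb (pA D a (σ f)).hv
        (by rw [hb, ← h2]; exact (σ f).hv) h4⟩
    · obtain ⟨c, hc⟩ := Dir.exists hconn h2
      have hbc : (σ f).b ≠ c := fun e => h3 (e ▸ hc)
      have h4 : Dir G (σ f).v (pA D a (σ f)).v (σ f).b :=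
        Dir.self (σ f).hb (σ f).hv (by rw [← hb]; exact (pA D a (σ f)).hv) h1.symm
      have h5 := Dir.cross hconn hcomp h4 hc hbc
      refine ⟨fun e => h5.right e.symm, (pA D a (σ f)).hb, (pA D a (σ f)).hv, (σ f).v, ?_, h5⟩
      rw [hb]
      exact (σ f).hv
  | b1 β hβ =>
    refine ⟨fun h => absurd h (by decide), fun _ => Or.inl ⟨rfl, sB_b_ne D β hβ f⟩⟩
  | b2 β hβ σ h ih =>
    refine ⟨fun h => absurd h (by decide), fun _ => Or.inr ?_⟩
    obtain ⟨h2, h3⟩ := ih.1 rfl
    have hv : (pB D β (σ f)).v = (σ f).v := rfl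
    show (pB D β (σ f)).v ≠ f.v ∧ ¬ Dir G (pB D β (σ f)).v f.v (pB D β (σ f)).b
    refine ⟨by rw [hv]; exact h2, fun h4 => ?_⟩
    rw [hv] at h4
    exact sB_b_ne D β hβ (σ f) (Dir.unique hcomp h4 h3)

theorem HH_free (hconn : G.Connected) (hcomp : Comp G) (σ : Equiv.Perm (Flag G))
    (h : σ ∈ HH D) (f : Flag G) (hf : σ f = f) : σ = 1 := by
  rcases mem_HH D σ h with h1 | ⟨t, h1⟩
  · exact h1
  · exfalso
    have := red_moves D hconn hcomp t σ h1 f
    rw [hf] at this
    cases t with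
    | true => exact (this.1 rfl).1 rfl
    | false =>
      rcases this.2 rfl with ⟨-, h2⟩ | ⟨h2, -⟩
      · exact h2 rfl
      · exact h2 rfl

theorem same_block' (f f' : Flag G) (h : f.b = f'.b) : ∃ a, pA D a f = f' := by
  obtain ⟨⟨v, b⟩, hb, hv⟩ := f
  obtain ⟨⟨v', b'⟩, hb', hv'⟩ := f'
  have h' : b = b' := h
  subst h'
  refine ⟨D.cA b hb ⟨v', hv'⟩ * (D.cA b hb ⟨v, hv⟩)⁻¹, ?_⟩
  apply Flag.ext
  · show ((D.cA b hb).symm (D.cA b hb ⟨v', hv'⟩ * (D.cA b hb ⟨v, hv⟩)⁻¹ *
      D.cA b hb ⟨v, hv⟩)).1 = v'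
    rw [inv_mul_cancel_right, Equiv.symm_apply_apply]
  · rfl

theorem same_vertex' (f f' : Flag G) (h : f.v = f'.v) : ∃ β, pB D β f = f' := by
  obtain ⟨⟨v, b⟩, hb, hv⟩ := f
  obtain ⟨⟨v', b'⟩, hb', hv'⟩ := f'
  have h' : v = v' := h
  subst h'
  refine ⟨D.cB v ⟨b', hb', hv'⟩ * (D.cB v ⟨b, hb, hv⟩)⁻¹, ?_⟩
  apply Flag.ext
  · rfl
  · show ((D.cB v).symm (D.cB v ⟨b', hb', hv'⟩ * (D.cB v ⟨b, hb, hv⟩)⁻¹ *
      D.cB v ⟨b, hb, hv⟩)).1 = b'
    rw [inv_mul_cancel_right, Equiv.symm_apply_apply]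

theorem same_block (f f' : Flag G) (h : f.b = f'.b) : ∃ σ ∈ HH D, σ f = f' := by
  obtain ⟨a, ha⟩ := same_block' D f f' h
  exact ⟨_, pA_mem D a, ha⟩

theorem same_vertex (f f' : Flag G) (h : f.v = f'.v) : ∃ σ ∈ HH D, σ f = f' := by
  obtain ⟨a, ha⟩ := same_vertex' D f f' h
  exact ⟨_, pB_mem D a, ha⟩

theorem trans_of_walk {v w : V} (p : G.Walk v w) : ∀ f f' : Flag G, f.v = v → f'.v = w →
    ∃ σ ∈ HH D, σ f = f' := by
  induction p with
  | nil =>
    intro f f' h h'
    exact same_vertex D f f' (h.trans h'.symm)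
  | cons hadj p ih =>
    rename_i x y z
    intro f f' h h'
    obtain ⟨S, hS, hx, hy⟩ := exists_block hadj
    obtain ⟨σ1, h1, e1⟩ := same_vertex D f (mkF x S hS hx) h
    obtain ⟨σ2, h2, e2⟩ := same_block D (mkF x S hS hx) (mkF y S hS hy) rfl
    obtain ⟨σ3, h3, e3⟩ := ih (mkF y S hS hy) f' rfl h'
    refine ⟨σ3 * (σ2 * σ1), (HH D).mul_mem h3 ((HH D).mul_mem h2 h1), ?_⟩
    show σ3 (σ2 (σ1 f)) = f'
    rw [e1, e2, e3]

theorem HH_trans (hconn : G.Connected) (f f' : Flag G) : ∃ σ ∈ HH D, σ f = f' := by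
  obtain ⟨p⟩ := hconn.preconnected f.v f'.v
  exact trans_of_walk D p f f' rfl rfl

/-- Equivariant self-maps of the set of flags. -/
theorem exists_equivariant (hconn : G.Connected) (hcomp : Comp G) (f0 f1 : Flag G) :
    ∃ φ : Flag G → Flag G, φ f0 = f1 ∧ ∀ τ ∈ HH D, ∀ f, φ (τ f) = τ (φ f) := by
  choose s hs hs' using fun f => HH_trans D hconn f0 f
  have huniq : ∀ σ ∈ HH D, ∀ τ ∈ HH D, σ f0 = τ f0 → σ = τ := by
    intro σ hσ τ hτ h
    have := HH_free D hconn hcomp (τ⁻¹ * σ) ((HH D).mul_mem ((HH D).inv_mem hτ) hσ) f0 (by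
      show τ⁻¹ (σ f0) = f0
      rw [h]
      exact Equiv.symm_apply_apply τ f0)
    exact (inv_mul_eq_one.1 this).symm
  refine ⟨fun f => s f f1, ?_, fun τ hτ f => ?_⟩
  · have : s f0 = 1 := huniq _ (hs f0) 1 (HH D).one_mem (hs' f0)
    show s f0 f1 = f1
    rw [this]
    rfl
  · show s (τ f) f1 = τ (s f f1)
    have : s (τ f) = τ * s f := by
      apply huniq _ (hs _) _ ((HH D).mul_mem hτ (hs f))
      rw [hs']
      show τ f = τ (s f f0)
      rw [hs']
    rw [this]
    rfl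

/-! ### Automorphisms -/

theorem InW.image (g : G ≃g G) {S : Set V} {x y : V} (h : InW G S x y) :
    InW G (g '' S) (g x) (g y) := by
  obtain ⟨p, hp⟩ := h
  refine ⟨p.map g.toHom, fun z hz => ?_⟩
  rw [SimpleGraph.Walk.support_map] at hz
  obtain ⟨w, hw, rfl⟩ := List.mem_map.1 hz
  exact ⟨w, hp w hw, rfl⟩

theorem NoCut.image (g : G ≃g G) {S : Set V} (h : NoCut G S) : NoCut G (g '' S) := by
  rw [noCut_iff] at h ⊢
  obtain ⟨h0, h1, h2⟩ := h
  refine ⟨h0.image _, ?_, ?_⟩
  · rintro _ ⟨x, hx, rfl⟩ _ ⟨y, hy, rfl⟩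
    exact (h1 x hx y hy).image g
  · rintro _ ⟨v, hv, rfl⟩ _ ⟨⟨x, hx, rfl⟩, hxv⟩ _ ⟨⟨y, hy, rfl⟩, hyv⟩
    have hx' : x ∈ S \ {v} := ⟨hx, fun e => hxv (congrArg g e)⟩
    have hy' : y ∈ S \ {v} := ⟨hy, fun e => hyv (congrArg g e)⟩
    refine ((h2 v hv x hx' y hy').image g).mono ?_
    rintro _ ⟨z, ⟨hz, hzv⟩, rfl⟩
    exact ⟨⟨z, hz, rfl⟩, fun e => hzv (g.injective e)⟩

theorem image_inv_image (g : G ≃g G) (S : Set V) : g '' ((g⁻¹ : G ≃g G) '' S) = S := by
  ext x
  constructor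
  · rintro ⟨_, ⟨y, hy, rfl⟩, rfl⟩
    have : g (g⁻¹ y) = y := RelIso.apply_inv_self g y
    rwa [this]
  · intro hx
    exact ⟨g⁻¹ x, ⟨x, hx, rfl⟩, RelIso.apply_inv_self g x⟩

theorem inv_image_image (g : G ≃g G) (S : Set V) : (g⁻¹ : G ≃g G) '' (g '' S) = S := by
  have := image_inv_image g⁻¹ S
  rwa [inv_inv] at this

theorem IsBlock.image (g : G ≃g G) {S : Set V} (h : IsBlock G S) : IsBlock G (g '' S) := by
  refine ⟨h.1.image g, fun T hT hST => ?_⟩
  have h1 : S ≤ (g⁻¹ : G ≃g G) '' T := by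
    rw [← inv_image_image g S]
    exact Set.image_mono hST
  have h2 := h.2 (hT.image g⁻¹) h1
  rw [← image_inv_image g T]
  exact Set.image_mono h2

/-- The automorphism group acts on flags. -/
@[reducible] def flagAction (G : SimpleGraph V) : MulAction (G ≃g G) (Flag G) where
  smul g f := mkF (g f.v) (g '' f.b) (f.hb.image g) ⟨f.v, f.hv, rfl⟩
  one_smul f := by
    apply Flag.ext
    · rfl
    · show (1 : G ≃g G) '' f.b = f.b
      exact Set.image_id f.b
  mul_smul g h f := by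
    apply Flag.ext
    · rfl
    · show (g * h) '' f.b = g '' (h '' f.b)
      rw [← Set.image_comp]
      rfl

attribute [local instance] flagAction

theorem smul_v (g : G ≃g G) (f : Flag G) : (g • f).v = g f.v := rfl

theorem smul_b (g : G ≃g G) (f : Flag G) : (g • f).b = g '' f.b := rfl

include D in
/-- The automorphism group acts transitively on flags. -/
theorem flag_transitive (hconn : G.Connected) (hcomp : Comp G)
    (hblock : ∀ v : V, ∃ f : Flag G, f.v = v) (f0 f1 : Flag G) :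
    ∃ g : G ≃g G, g • f0 = f1 := by
  obtain ⟨φ, hφ0, hφ⟩ := exists_equivariant D hconn hcomp f0 f1
  obtain ⟨ψ, hψ0, hψ⟩ := exists_equivariant D hconn hcomp f1 f0
  have hψφ : ∀ f, ψ (φ f) = f := by
    intro f
    obtain ⟨σ, hσ, rfl⟩ := HH_trans D hconn f0 f
    rw [hφ σ hσ, hφ0, hψ σ hσ, hψ0]
  have hφψ : ∀ f, φ (ψ f) = f := by
    intro f
    obtain ⟨σ, hσ, rfl⟩ := HH_trans D hconn f1 f
    rw [hψ σ hσ, hψ0, hφ σ hσ, hφ0]
  -- vertices and blocks are respected
  have hv : ∀ φ : Flag G → Flag G, (∀ τ ∈ HH D, ∀ f, φ (τ f) = τ (φ f)) →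
      ∀ f f' : Flag G, f.v = f'.v → (φ f).v = (φ f').v := by
    intro φ hφ f f' h
    obtain ⟨β, rfl⟩ := same_vertex' D f f' h
    rw [hφ _ (pB_mem D _)]
    rfl
  have hbb : ∀ φ : Flag G → Flag G, (∀ τ ∈ HH D, ∀ f, φ (τ f) = τ (φ f)) →
      ∀ f f' : Flag G, f.b = f'.b → (φ f).b = (φ f').b := by
    intro φ hφ f f' h
    obtain ⟨β, rfl⟩ := same_block' D f f' h
    rw [hφ _ (pA_mem D _)]
    rfl
  choose c hc using hblock
  have hgf : ∀ f : Flag G, (φ (c f.v)).v = (φ f).v := fun f => hv φ hφ _ _ (hc f.v)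
  have hgf' : ∀ f : Flag G, (ψ (c f.v)).v = (ψ f).v := fun f => hv ψ hψ _ _ (hc f.v)
  have hadj : ∀ φ ψ : Flag G → Flag G, (∀ τ ∈ HH D, ∀ f, φ (τ f) = τ (φ f)) →
      (∀ f : Flag G, (φ (c f.v)).v = (φ f).v) → (∀ f : Flag G, (ψ (c f.v)).v = (ψ f).v) →
      (∀ f, ψ (φ f) = f) →
      ∀ x y, G.Adj x y → G.Adj (φ (c x)).v (φ (c y)).v := by
    intro φ ψ hφ h1 h2 h3 x y hxy
    obtain ⟨S, hS, hx, hy⟩ := exists_block hxy
    have e1 : (φ (c x)).v = (φ (mkF x S hS hx)).v := h1 (mkF x S hS hx)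
    have e2 : (φ (c y)).v = (φ (mkF y S hS hy)).v := h1 (mkF y S hS hy)
    have e3 : (φ (mkF x S hS hx)).b = (φ (mkF y S hS hy)).b := hbb φ hφ _ _ rfl
    rw [e1, e2]
    refine hcomp _ (φ (mkF x S hS hx)).hb _ (φ (mkF x S hS hx)).hv _ ?_ ?_
    · rw [e3]
      exact (φ (mkF y S hS hy)).hv
    · intro e4
      have e5 : x = y := by
        have a1 := h2 (φ (mkF x S hS hx))
        have a2 := h2 (φ (mkF y S hS hy))
        rw [h3] at a1 a2
        have a1' : (ψ (c (φ (mkF x S hS hx)).v)).v = x := a1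
        have a2' : (ψ (c (φ (mkF y S hS hy)).v)).v = y := a2
        rw [← a1', ← a2', e4]
      exact hxy.ne e5
  have hinv : ∀ x, (ψ (c (φ (c x)).v)).v = x := by
    intro x
    rw [hgf' (φ (c x)), hψφ, hc]
  have hinv' : ∀ x, (φ (c (ψ (c x)).v)).v = x := by
    intro x
    rw [hgf (ψ (c x)), hφψ, hc]
  let g : G ≃g G :=
    { toFun := fun x => (φ (c x)).v
      invFun := fun x => (ψ (c x)).v
      left_inv := hinv
      right_inv := hinv'
      map_rel_iff' := by
        intro x y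
        constructor
        · intro h
          have := hadj ψ φ hψ hgf' hgf hφψ _ _ h
          have h1 : (ψ (c (φ (c x)).v)).v = x := hinv x
          have h2 : (ψ (c (φ (c y)).v)).v = y := hinv y
          have this' : G.Adj (ψ (c (φ (c x)).v)).v (ψ (c (φ (c y)).v)).v := this
          rwa [h1, h2] at this'
        · intro h
          exact hadj φ ψ hφ hgf hgf' hψφ _ _ h }
  have hg : ∀ x, g x = (φ (c x)).v := fun _ => rfl
  refine ⟨g, Flag.ext ?_ ?_⟩
  · rw [smul_v, hg, hgf, hφ0]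
  · rw [smul_b]
    -- the image of the block of `f0` is contained in the block of `f1`, hence equal
    have hsub : g '' f0.b ⊆ f1.b := by
      rintro _ ⟨x, hx, rfl⟩
      rw [hg]
      have e1 : (φ (c x)).v = (φ (mkF x f0.b f0.hb hx)).v := hgf (mkF x f0.b f0.hb hx)
      have e2 : (φ (mkF x f0.b f0.hb hx)).b = (φ f0).b := hbb φ hφ _ _ rfl
      rw [e1, ← hφ0, ← e2]
      exact (φ (mkF x f0.b f0.hb hx)).hv
    exact Set.Subset.antisymm hsub ((f0.hb.image g).2 f1.hb.1 hsub)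

end Blocks

/-! ### The compact space of consistent orientations -/

section Space

variable {V : Type} {G : SimpleGraph V}

attribute [local instance] flagAction

/-- Consistency of an orientation of the edges of the block tree: no two flags of a block point
out of the block, no two flags of a vertex point away from the vertex. -/
def Ok (o : Flag G → Bool) : Prop :=
  (∀ f f' : Flag G, f.b = f'.b → f.v ≠ f'.v → ¬ (o f = true ∧ o f' = true)) ∧
  (∀ f f' : Flag G, f.v = f'.v → f.b ≠ f'.b → ¬ (o f = false ∧ o f' = false))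

/-- The compact space. -/
def XX (G : SimpleGraph V) : Type := {o : Flag G → Bool // Ok o}

instance : TopologicalSpace (XX G) :=
  inferInstanceAs (TopologicalSpace {o : Flag G → Bool // Ok o})

instance : T2Space (XX G) := inferInstanceAs (T2Space {o : Flag G → Bool // Ok o})

theorem isClosed_ok : IsClosed {o : Flag G → Bool | Ok o} := by
  have h1 : ∀ (f f' : Flag G) (t : Bool), IsClosed {o : Flag G → Bool | ¬ (o f = t ∧ o f' = t)} := by
    intro f f' t
    have : Continuous fun o : Flag G → Bool => (o f, o f') :=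
      (continuous_apply f).prodMk (continuous_apply f')
    have h2 : IsClosed ({q : Bool × Bool | ¬ (q.1 = t ∧ q.2 = t)}) := isClosed_discrete _
    exact h2.preimage this
  have : {o : Flag G → Bool | Ok o} =
      (⋂ (f : Flag G) (f' : Flag G) (_ : f.b = f'.b) (_ : f.v ≠ f'.v),
        {o : Flag G → Bool | ¬ (o f = true ∧ o f' = true)}) ∩
      (⋂ (f : Flag G) (f' : Flag G) (_ : f.v = f'.v) (_ : f.b ≠ f'.b),
        {o : Flag G → Bool | ¬ (o f = false ∧ o f' = false)}) := by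
    ext o
    simp only [Set.mem_inter_iff, Set.mem_iInter]
    rfl
  rw [this]
  refine IsClosed.inter ?_ ?_
  · exact isClosed_iInter fun f => isClosed_iInter fun f' => isClosed_iInter fun _ =>
      isClosed_iInter fun _ => h1 f f' true
  · exact isClosed_iInter fun f => isClosed_iInter fun f' => isClosed_iInter fun _ =>
      isClosed_iInter fun _ => h1 f f' false

instance : CompactSpace (XX G) := isCompact_iff_compactSpace.1 (isClosed_ok (G := G)).isCompact

theorem image_ne (g : G ≃g G) {S T : Set V} (h : S ≠ T) : g '' S ≠ g '' T :=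
  fun e => h (g.injective.image_injective e)

/-- The action of the automorphism group. -/
@[reducible] def actXX (G : SimpleGraph V) : MulAction (G ≃g G) (XX G) where
  smul g o := ⟨fun f => o.1 (g⁻¹ • f),
    fun f f' h1 h2 => o.2.1 _ _ (by rw [smul_b, smul_b, h1]) (by
      rw [smul_v, smul_v]
      exact fun e => h2 (g⁻¹.injective e)),
    fun f f' h1 h2 => o.2.2 _ _ (by rw [smul_v, smul_v, h1]) (by
      rw [smul_b, smul_b]
      exact image_ne _ h2)⟩
  one_smul o := by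
    apply Subtype.ext
    funext f
    show o.1 ((1 : G ≃g G)⁻¹ • f) = o.1 f
    rw [inv_one, one_smul]
  mul_smul g h o := by
    apply Subtype.ext
    funext f
    show o.1 ((g * h)⁻¹ • f) = o.1 (h⁻¹ • g⁻¹ • f)
    rw [mul_inv_rev, mul_smul]

attribute [local instance] actXX autTopology

theorem smul_val (g : G ≃g G) (o : XX G) (f : Flag G) : (g • o).1 f = o.1 (g⁻¹ • f) := rfl

theorem isOpen_eval (v w : V) : IsOpen {g : G ≃g G | g v = w} := by
  let _ : TopologicalSpace V := ⊥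
  have _ : DiscreteTopology V := ⟨rfl⟩
  have h : Continuous fun (g : G ≃g G) (v : V) => g v := continuous_induced_dom
  have h2 : Continuous fun (g : G ≃g G) => g v := (continuous_apply v).comp h
  exact (isOpen_discrete {w}).preimage h2

theorem eventually_eq (hcomp : Comp G) (htwo : ∀ f : Flag G, ∃ v' ∈ f.b, v' ≠ f.v)
    (g0 : G ≃g G) (f : Flag G) :
    ∀ᶠ g in nhds g0, g⁻¹ • f = g0⁻¹ • f := by
  obtain ⟨v', hv', hne⟩ := htwo f
  have hopen : IsOpen ({g : G ≃g G | g (g0⁻¹ f.v) = f.v} ∩ {g : G ≃g G | g (g0⁻¹ v') = v'}) :=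
    (isOpen_eval _ _).inter (isOpen_eval _ _)
  refine Filter.mem_of_superset (hopen.mem_nhds ⟨RelIso.apply_inv_self g0 f.v,
    RelIso.apply_inv_self g0 v'⟩) ?_
  rintro g ⟨h1, h2⟩
  have e1 : g⁻¹ f.v = g0⁻¹ f.v := by
    have : g⁻¹ (g (g0⁻¹ f.v)) = g0⁻¹ f.v := RelIso.inv_apply_self g _
    rwa [h1] at this
  have e2 : g⁻¹ v' = g0⁻¹ v' := by
    have : g⁻¹ (g (g0⁻¹ v')) = g0⁻¹ v' := RelIso.inv_apply_self g _
    rwa [h2] at this
  apply Flag.ext
  · exact e1
  · show (g⁻¹ : G ≃g G) '' f.b = (g0⁻¹ : G ≃g G) '' f.b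
    have hb1 : IsBlock G ((g⁻¹ : G ≃g G) '' f.b) := f.hb.image g⁻¹
    have hb2 : IsBlock G ((g0⁻¹ : G ≃g G) '' f.b) := f.hb.image g0⁻¹
    have m1 : g0⁻¹ f.v ∈ (g⁻¹ : G ≃g G) '' f.b := ⟨f.v, f.hv, e1⟩
    have m2 : g0⁻¹ f.v ∈ (g0⁻¹ : G ≃g G) '' f.b := ⟨f.v, f.hv, rfl⟩
    have m3 : g0⁻¹ v' ∈ (g⁻¹ : G ≃g G) '' f.b := ⟨v', hv', e2⟩
    have m4 : g0⁻¹ v' ∈ (g0⁻¹ : G ≃g G) '' f.b := ⟨v', hv', rfl⟩
    exact block_unique hcomp hb1 hb2 m1 m2 m3 m4
      (InW.refl (fun e => hne (g0⁻¹.injective e)))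

theorem continuousSMul_XX (hcomp : Comp G) (htwo : ∀ f : Flag G, ∃ v' ∈ f.b, v' ≠ f.v) :
    ContinuousSMul (G ≃g G) (XX G) := by
  constructor
  refine continuous_induced_rng.2 (continuous_pi fun f => ?_)
  rw [continuous_iff_continuousAt]
  rintro ⟨g0, o0⟩
  have h1 : ContinuousAt (fun p : (G ≃g G) × XX G => p.2.1 (g0⁻¹ • f)) (g0, o0) := by
    refine Continuous.continuousAt ?_
    exact ((continuous_apply (g0⁻¹ • f)).comp continuous_subtype_val).comp continuous_snd
  refine h1.congr ?_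
  have h2 := (eventually_eq hcomp htwo g0 f)
  have h3 : ∀ᶠ p : (G ≃g G) × XX G in nhds (g0, o0), p.1⁻¹ • f = g0⁻¹ • f := by
    rw [nhds_prod_eq]
    exact Filter.Eventually.prod_inl h2 _
  filter_upwards [h3] with p hp
  show p.2.1 (g0⁻¹ • f) = p.2.1 (p.1⁻¹ • f)
  rw [hp]

/-- The orientation towards a vertex is consistent. -/
theorem nonempty_XX (hconn : G.Connected) (hcomp : Comp G) (w : V) : Nonempty (XX G) := by
  classical
  have key : ∀ f : Flag G, f.v ≠ w → ∀ v', v' ∈ f.b → v' ≠ f.v → ¬ Dir G f.v w f.b →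
      w ≠ v' ∧ Dir G v' w f.b := by
    intro f hw v' hv' hne hd
    obtain ⟨c, hc⟩ := Dir.exists hconn hw
    have h5 := Dir.cross hconn hcomp (Dir.self f.hb f.hv hv' hne.symm) hc (fun e => hd (e ▸ hc))
    exact ⟨h5.right, f.hb, hv', f.v, f.hv, h5⟩
  refine ⟨⟨fun f => decide (f.v = w ∨ ¬ Dir G f.v w f.b), ?_, ?_⟩⟩
  · rintro f f' hb hv ⟨h1, h2⟩
    have h1 := of_decide_eq_true h1
    have h2 := of_decide_eq_true h2
    by_cases hw : f.v = w
    · rcases h2 with h2 | h2
      · exact hv (hw.trans h2.symm)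
      · apply h2
        refine Dir.self f'.hb f'.hv ?_ (fun e => hv (hw.trans e.symm))
        rw [← hw, ← hb]
        exact f.hv
    · have h1 := h1.resolve_left hw
      obtain ⟨h3, h4⟩ := key f hw f'.v (hb ▸ f'.hv) (Ne.symm hv) h1
      rcases h2 with h2 | h2
      · exact h3 h2.symm
      · exact h2 (hb ▸ h4)
  · rintro f f' hv hb ⟨h1, h2⟩
    have h1 := of_decide_eq_false h1
    have h2 := of_decide_eq_false h2
    push Not at h1 h2
    exact hb (Dir.unique hcomp h1.2 (hv ▸ h2.2))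

/-! ### Cardinalities -/

theorem equiv_zmod {α : Type} (S : Set α) [Countable S] (k : ℕ∞) (hk : S.encard = k)
    (h1 : 1 ≤ k) : Nonempty (S ≃ ZMod k.toNat) := by
  induction k using ENat.recTopCoe with
  | top =>
    have hinf : Infinite S := (Set.encard_eq_top_iff.1 hk).to_subtype
    obtain ⟨e⟩ : Nonempty (S ≃ ℕ) := nonempty_equiv_of_countable
    obtain ⟨e'⟩ : Nonempty (ℤ ≃ ℕ) := nonempty_equiv_of_countable
    exact ⟨e.trans e'.symm⟩
  | coe j =>
    have hj : 1 ≤ j := by exact_mod_cast h1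
    have hfin : S.Finite := Set.finite_of_encard_eq_coe hk
    have : Finite S := hfin
    have : NeZero j := ⟨by omega⟩
    have h2 : (Nat.card S : ℕ∞) = j := by
      rw [Nat.card_coe_set_eq, hfin.cast_ncard_eq, hk]
    have h3 : Nat.card S = Nat.card (ZMod j) := by
      rw [Nat.card_zmod]
      exact_mod_cast h2
    rw [ENat.toNat_natCast]
    exact Finite.card_eq.1 h3

theorem exists_data [Countable V] {m n : ℕ∞} (hm : 2 ≤ m) (hn : 2 ≤ n)
    (hG : IsTreeLike G m n) : Nonempty (Data G) := by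
  have hcomp : Comp G := fun S hS => (hG.2.1 S hS).1
  have hm1 : 1 ≤ m := le_trans (by norm_num) hm
  have hn1 : 1 ≤ n := le_trans (by norm_num) hn
  have hA : ∀ b : Set V, IsBlock G b → Nonempty (b ≃ Multiplicative (ZMod n.toNat)) :=
    fun b hb => equiv_zmod b n (hG.2.1 b hb).2 hn1
  have hB : ∀ v : V, Nonempty ({b : Set V // IsBlock G b ∧ v ∈ b} ≃
      Multiplicative (ZMod m.toNat)) := by
    intro v
    have hex : ∀ b : {b : Set V // IsBlock G b ∧ v ∈ b}, ∃ u ∈ b.1, u ≠ v := by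
      intro b
      refine Set.exists_ne_of_one_lt_encard ?_ v
      rw [(hG.2.1 b.1 b.2.1).2]
      exact lt_of_lt_of_le (by norm_num) hn
    choose u hu hne using hex
    have hinj : Function.Injective u := by
      intro b b' h
      refine Subtype.ext (block_unique hcomp b.2.1 b'.2.1 b.2.2 b'.2.2 (hu b) (hu b') ?_)
      rw [h]
      exact InW.refl (hne b')
    have hc : Countable {S | IsBlock G S ∧ v ∈ S} := hinj.countable
    exact equiv_zmod {S | IsBlock G S ∧ v ∈ S} m (hG.2.2 v) hm1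
  exact ⟨{ A := Multiplicative (ZMod n.toNat)
           B := Multiplicative (ZMod m.toNat)
           cA := fun b hb => (hA b hb).some
           cB := fun v => (hB v).some }⟩

/-! ### The measure -/

theorem null_of_infinite {Ω : Type} [MeasurableSpace Ω] (μ : Measure Ω) [IsProbabilityMeasure μ]
    {ι : Type} [Infinite ι] (s : ι → Set Ω) (hm : ∀ i, MeasurableSet (s i))
    (hd : Pairwise (Function.onFun Disjoint s)) (c : ENNReal) (hc : ∀ i, μ (s i) = c) : c = 0 := by
  by_contra h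
  let e := Infinite.natEmbedding ι
  have h1 : μ (⋃ k : ℕ, s (e k)) = ∑' k : ℕ, μ (s (e k)) :=
    measure_iUnion (fun i j hij => hd (fun h => hij (e.injective h))) (fun k => hm _)
  simp only [hc] at h1
  rw [ENNReal.tsum_const_eq_top_of_ne_zero h] at h1
  exact measure_ne_top μ _ h1

end Space

/-- **Automorphism groups of infinite tree-like graphs are never amenable.**  Let `2 ≤ m, n ≤ ℵ₀`
and let at least one of `m`, `n` be infinite.  Then the automorphism group of the tree-like graph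
`T_{m,n}`, with the topology of pointwise convergence, is not amenable. -/
theorem result (m n : ℕ∞) (hm : 2 ≤ m) (hn : 2 ≤ n) (hinf : m = ⊤ ∨ n = ⊤)
    (V : Type) [Countable V] (G : SimpleGraph V) (hG : IsTreeLike G m n) :
    ¬ @IsAmenable (G ≃g G) _ (autTopology G) := by
  intro hAm
  let _ := autTopology G
  let _ := flagAction G
  let _ := actXX G
  obtain ⟨D⟩ := exists_data hm hn hG
  have hconn : G.Connected := hG.1
  have hcomp : Comp G := fun S hS => (hG.2.1 S hS).1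
  have htwo : ∀ f : Flag G, ∃ v' ∈ f.b, v' ≠ f.v := by
    intro f
    refine Set.exists_ne_of_one_lt_encard ?_ f.v
    rw [(hG.2.1 f.b f.hb).2]
    exact lt_of_lt_of_le (by norm_num) hn
  have htwo' : ∀ v : V, ∀ b : Set V, ∃ b' : Set V, (IsBlock G b' ∧ v ∈ b') ∧ b' ≠ b := by
    intro v b
    refine Set.exists_ne_of_one_lt_encard (s := {S | IsBlock G S ∧ v ∈ S}) ?_ b
    rw [hG.2.2 v]
    exact lt_of_lt_of_le (by norm_num) hm
  have hblock : ∀ v : V, ∃ f : Flag G, f.v = v := by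
    intro v
    obtain ⟨b, ⟨hb, hv⟩, -⟩ := htwo' v ∅
    exact ⟨mkF v b hb hv, rfl⟩
  obtain ⟨w⟩ := hconn.nonempty
  have hne : Nonempty (XX G) := nonempty_XX hconn hcomp w
  let _ : MeasurableSpace (XX G) := borel (XX G)
  have _ : BorelSpace (XX G) := ⟨rfl⟩
  have _ : ContinuousSMul (G ≃g G) (XX G) := continuousSMul_XX hcomp htwo
  obtain ⟨μ, hμ, hinv⟩ := hAm (XX G)
  -- the basic events
  have hopen : ∀ (t : Bool) (f : Flag G), IsOpen {o : XX G | o.1 f = t} := by
    intro t f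
    have : Continuous fun o : XX G => o.1 f := (continuous_apply f).comp continuous_subtype_val
    exact (isOpen_discrete {t}).preimage this
  have hmeas : ∀ (t : Bool) (f : Flag G), MeasurableSet {o : XX G | o.1 f = t} :=
    fun t f => (hopen t f).measurableSet
  have hshift : ∀ (t : Bool) (g : G ≃g G) (f : Flag G),
      μ {o : XX G | o.1 (g • f) = t} = μ {o : XX G | o.1 f = t} := by
    intro t g f
    have h1 : (μ.map (fun x => g • x)) {o : XX G | o.1 (g • f) = t} =
        μ ((fun x => g • x) ⁻¹' {o : XX G | o.1 (g • f) = t}) :=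
      Measure.map_apply (continuous_const_smul g).measurable (hmeas t _)
    rw [hinv g] at h1
    rw [h1]
    congr 1
    ext o
    show o.1 (g⁻¹ • g • f) = t ↔ o.1 f = t
    rw [inv_smul_smul]
  have hall : ∀ (t : Bool) (f f' : Flag G),
      μ {o : XX G | o.1 f = t} = μ {o : XX G | o.1 f' = t} := by
    intro t f f'
    obtain ⟨g, hg⟩ := flag_transitive D hconn hcomp hblock f' f
    rw [← hg]
    exact hshift t g f'
  obtain ⟨f0, hf0⟩ := hblock w
  rcases hinf with rfl | rfl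
  · -- infinitely many blocks at every vertex
    have hinf : Infinite {S | IsBlock G S ∧ f0.v ∈ S} :=
      (Set.encard_eq_top_iff.1 (hG.2.2 f0.v)).to_subtype
    have h0 : ∀ f : Flag G, μ {o : XX G | o.1 f = false} = 0 := by
      intro f
      refine null_of_infinite μ (ι := {S | IsBlock G S ∧ f0.v ∈ S})
        (fun S => {o : XX G | o.1 (mkF f0.v S.1 S.2.1 S.2.2) = false}) (fun S => hmeas _ _) ?_ _
        (fun S => hall false _ f)
      intro S T hST
      refine Set.disjoint_left.2 fun o ho ho' => ?_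
      have e1 : o.1 (mkF f0.v S.1 S.2.1 S.2.2) = false := ho
      have e2 : o.1 (mkF f0.v T.1 T.2.1 T.2.2) = false := ho'
      exact o.2.2 (mkF f0.v S.1 S.2.1 S.2.2) (mkF f0.v T.1 T.2.1 T.2.2) rfl
        (fun e => hST (Subtype.ext e)) ⟨e1, e2⟩
    obtain ⟨v', hv', hvv⟩ := htwo f0
    have hcov : (Set.univ : Set (XX G)) ⊆ {o : XX G | o.1 f0 = false} ∪
        {o : XX G | o.1 (mkF v' f0.b f0.hb hv') = false} := by
      intro o _
      by_contra hc
      rw [Set.mem_union, not_or] at hc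
      have h1 : o.1 f0 = true := by simpa using hc.1
      have h2 : o.1 (mkF v' f0.b f0.hb hv') = true := by simpa using hc.2
      exact o.2.1 f0 (mkF v' f0.b f0.hb hv') rfl (Ne.symm hvv) ⟨h1, h2⟩
    have h3 := (measure_mono hcov).trans (measure_union_le (μ := μ) _ _)
    rw [h0, h0, measure_univ] at h3
    norm_num at h3
  · -- infinite blocks
    have hinf : Infinite f0.b :=
      (Set.encard_eq_top_iff.1 (hG.2.1 f0.b f0.hb).2).to_subtype
    have h0 : ∀ f : Flag G, μ {o : XX G | o.1 f = true} = 0 := by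
      intro f
      refine null_of_infinite μ (ι := f0.b)
        (fun x => {o : XX G | o.1 (mkF x.1 f0.b f0.hb x.2) = true}) (fun x => hmeas _ _) ?_ _
        (fun x => hall true _ f)
      intro x y hxy
      refine Set.disjoint_left.2 fun o ho ho' => ?_
      have e1 : o.1 (mkF x.1 f0.b f0.hb x.2) = true := ho
      have e2 : o.1 (mkF y.1 f0.b f0.hb y.2) = true := ho'
      exact o.2.1 (mkF x.1 f0.b f0.hb x.2) (mkF y.1 f0.b f0.hb y.2) rfl
        (fun e => hxy (Subtype.ext e)) ⟨e1, e2⟩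
    obtain ⟨b', ⟨hb', hvb'⟩, hbb'⟩ := htwo' f0.v f0.b
    have hcov : (Set.univ : Set (XX G)) ⊆ {o : XX G | o.1 f0 = true} ∪
        {o : XX G | o.1 (mkF f0.v b' hb' hvb') = true} := by
      intro o _
      by_contra hc
      rw [Set.mem_union, not_or] at hc
      have h1 : o.1 f0 = false := by simpa using hc.1
      have h2 : o.1 (mkF f0.v b' hb' hvb') = false := by simpa using hc.2
      exact o.2.2 f0 (mkF f0.v b' hb' hvb') rfl (Ne.symm hbb') ⟨h1, h2⟩
    have h3 := (measure_mono hcov).trans (measure_union_le (μ := μ) _ _)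
    rw [h0, h0, measure_univ] at h3
    norm_num at h3

end Pool.Agent.Results.MP_75f5df_co.NeverAmenable
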